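import Mathlib

set_option autoImplicit false

namespace Pool.Agent.Results.MP_150040_al.Fails

/-- right primitive: there is a faithful simple right module (no identity assumed) -/
def RightPrimitive (R : Type) [NonUnitalRing R] : Prop :=
  ∃ (M : Type) (_ : AddCommGroup M) (act : M →+ R →+ M),
    (∀ m r s, act m (r * s) = act (act m r) s) ∧
    (∃ m r, act m r ≠ 0) ∧
    (∀ N : AddSubgroup M, (∀ m ∈ N, ∀ r, act m r ∈ N) → N = ⊥ ∨ N = ⊤) ∧
    (∀ r, (∀ m, act m r = 0) → r = 0)

/-- the intersection of all nonzero two-sided ideals is nonzero -/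
def SubdirectlyIndecomposable (S : Type) [NonUnitalRing S] : Prop :=
  ∃ s : S, s ≠ 0 ∧ ∀ I : TwoSidedIdeal S, I ≠ ⊥ → s ∈ I

open Polynomial

abbrev K := AlgebraicClosure (ZMod 2)
abbrev E := AddMonoid.End K

noncomputable def mu (k : K) : E := AddMonoidHom.mulLeft k
noncomputable def tau : E := (frobenius K 2).toAddMonoidHom

lemma mu_apply (k z : K) : mu k z = k * z := rfl
lemma tau_pow_apply (i : ℕ) (z : K) : (tau ^ i) z = z ^ 2 ^ i := by
  induction i with
  | zero => simp
  | succ i ih =>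
    rw [pow_succ', AddMonoid.End.coe_mul, Function.comp_apply, ih]
    change (z ^ 2 ^ i) ^ 2 = _
    rw [← pow_mul, pow_succ]

noncomputable def T (p : K[X]) : E := p.sum fun i k => mu k * tau ^ i

lemma T_apply (p : K[X]) (z : K) : T p z = ∑ i ∈ p.support, p.coeff i * z ^ 2 ^ i := by
  unfold T Polynomial.sum
  have h := map_sum (AddMonoidHom.eval z) (fun i => (mu (p.coeff i) * tau ^ i : K →+ K)) p.support
  refine h.trans (Finset.sum_congr rfl fun i _ => ?_)
  change mu _ ((tau ^ i) z) = _
  rw [tau_pow_apply, mu_apply]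

lemma mu_add (a b : K) : mu (a + b) = mu a + mu b := by
  apply AddMonoidHom.ext; intro z
  change (a + b) * z = a * z + b * z
  ring

lemma mu_zero : mu 0 = 0 := by
  apply AddMonoidHom.ext; intro z
  change 0 * z = 0
  ring

lemma T_add (p q : K[X]) : T (p + q) = T p + T q :=
  Polynomial.sum_add_index _ _ _ (fun _ => by simp [mu_zero]) (fun _ _ _ => by
    rw [mu_add, add_mul])

lemma T_mon (i : ℕ) (k : K) : T (monomial i k) = mu k * tau ^ i :=
  Polynomial.sum_monomial_index _ _ (by simp [mu_zero])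

lemma T_zero : T 0 = 0 := by simp [T]

lemma mon_apply (i : ℕ) (k z : K) : (mu k * tau ^ i) z = k * z ^ 2 ^ i := by
  change mu _ ((tau ^ i) z) = _
  rw [tau_pow_apply, mu_apply]

lemma mon_mul (i j : ℕ) (k l : K) :
    (mu k * tau ^ i) * (mu l * tau ^ j) = mu (k * l ^ 2 ^ i) * tau ^ (i + j) := by
  apply AddMonoidHom.ext; intro z
  change (mu k * tau ^ i) ((mu l * tau ^ j) z) = (mu _ * tau ^ (i + j)) z
  rw [mon_apply, mon_apply, mon_apply, mul_pow, ← pow_mul, ← pow_add, add_comm j i, mul_assoc]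

lemma mu_one : mu 1 = 1 := by
  apply AddMonoidHom.ext; intro z
  change 1 * z = z
  ring

lemma T_mul (p q : K[X]) : ∃ r, T p * T q = T r := by
  induction p using Polynomial.induction_on' with
  | add a b ha hb =>
    obtain ⟨r, hr⟩ := ha; obtain ⟨s, hs⟩ := hb
    exact ⟨r + s, by rw [T_add, T_add, add_mul, hr, hs]⟩
  | monomial i k =>
    induction q using Polynomial.induction_on' with
    | add a b ha hb =>
      obtain ⟨r, hr⟩ := ha; obtain ⟨s, hs⟩ := hb
      exact ⟨r + s, by rw [T_add, T_add, mul_add, hr, hs]⟩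
    | monomial j l => exact ⟨monomial (i + j) (k * l ^ 2 ^ i), by rw [T_mon, T_mon, T_mon, mon_mul]⟩

lemma T_neg (p : K[X]) : T (-p) = -T p := by
  have := T_add p (-p)
  rw [add_neg_cancel, T_zero] at this
  exact (neg_eq_of_add_eq_zero_right this.symm).symm

noncomputable def R0 : Subring E where
  carrier := Set.range T
  mul_mem' := by
    rintro _ _ ⟨p, rfl⟩ ⟨q, rfl⟩
    obtain ⟨r, hr⟩ := T_mul p q
    exact ⟨r, hr.symm⟩
  one_mem' := ⟨monomial 0 1, by rw [T_mon, mu_one]; simp⟩
  add_mem' := by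
    rintro _ _ ⟨p, rfl⟩ ⟨q, rfl⟩
    exact ⟨p + q, T_add p q⟩
  zero_mem' := ⟨0, T_zero⟩
  neg_mem' := by
    rintro _ ⟨p, rfl⟩
    exact ⟨-p, T_neg p⟩

noncomputable def tt (p : K[X]) : R0 := ⟨T p, p, rfl⟩
noncomputable def mm (k : K) : R0 := ⟨mu k, monomial 0 k, by rw [T_mon]; simp⟩
noncomputable def x0 : R0 := ⟨tau, monomial 1 1, by rw [T_mon, mu_one]; simp⟩

lemma exists_sep (i m : ℕ) (h : i ≠ m) : ∃ z : K, z ^ 2 ^ i - z ^ 2 ^ m ≠ 0 := by
  by_contra hc
  push Not at hc
  have h1 : (X ^ 2 ^ i - X ^ 2 ^ m : K[X]) = 0 := by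
    apply Polynomial.eq_zero_of_infinite_isRoot
    have : {x : K | IsRoot (X ^ 2 ^ i - X ^ 2 ^ m : K[X]) x} = Set.univ := by
      ext z; simp [hc z]
    rw [this]; exact Set.infinite_univ
  have h2 := congrArg Polynomial.natDegree (sub_eq_zero.1 h1)
  simp only [natDegree_pow, natDegree_X, mul_one] at h2
  exact h (Nat.pow_right_injective le_rfl h2)

lemma key (J : Set R0) (hsub : ∀ a ∈ J, ∀ b ∈ J, a - b ∈ J) (hl : ∀ a, ∀ b ∈ J, a * b ∈ J)
    (hr : ∀ a ∈ J, ∀ b, a * b ∈ J) (N : ℕ) :
    ∀ p : K[X], p.support.card = N → p ≠ 0 → tt p ∈ J → ∃ n, x0 ^ n ∈ J := by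
  induction N using Nat.strong_induction_on with
  | _ N ih =>
    intro p hN hp hJ
    obtain ⟨m, hm⟩ := Polynomial.support_nonempty.2 hp
    by_cases h1 : ∀ i ∈ p.support, i = m
    · refine ⟨m, ?_⟩
      have hs : p.support = {m} := Finset.eq_singleton_iff_unique_mem.2 ⟨hm, h1⟩
      have : x0 ^ m = mm (p.coeff m)⁻¹ * tt p := by
        apply Subtype.ext
        apply AddMonoidHom.ext; intro z
        change (tau ^ m) z = mu _ (T p z)
        rw [tau_pow_apply, T_apply, hs, Finset.sum_singleton, mu_apply, ← mul_assoc,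
          inv_mul_cancel₀ (Polynomial.mem_support_iff.1 hm), one_mul]
      rw [this]; exact hl _ _ hJ
    · push Not at h1
      obtain ⟨i, hi, him⟩ := h1
      obtain ⟨z, hz⟩ := exists_sep i m him
      let q : K[X] := ∑ j ∈ p.support, monomial j (p.coeff j * (z ^ 2 ^ j - z ^ 2 ^ m))
      have hq : ∀ j, q.coeff j = p.coeff j * (z ^ 2 ^ j - z ^ 2 ^ m) := by
        intro j
        simp only [q, finsetSum_coeff, coeff_monomial, Finset.sum_ite_eq']
        split_ifs with h
        · rfl
        · rw [Polynomial.notMem_support_iff.1 h, zero_mul]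
      have hsub' : q.support ⊆ p.support.erase m := by
        intro j hj
        rw [Polynomial.mem_support_iff, hq] at hj
        rw [Finset.mem_erase, Polynomial.mem_support_iff]
        refine ⟨?_, left_ne_zero_of_mul hj⟩
        rintro rfl; simp at hj
      have hcard : q.support.card < N := by
        have := Finset.card_le_card hsub'
        rw [Finset.card_erase_of_mem hm] at this
        have := Finset.card_pos.2 ⟨m, hm⟩
        omega
      have hq0 : q ≠ 0 := by
        intro h
        have := hq i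
        rw [h, coeff_zero] at this
        exact mul_ne_zero (Polynomial.mem_support_iff.1 hi) hz this.symm
      refine ih _ hcard q rfl hq0 ?_
      have : tt q = tt p * mm z - mm (z ^ 2 ^ m) * tt p := by
        apply Subtype.ext
        apply AddMonoidHom.ext; intro w
        change T q w = T p (mu z w) - mu _ (T p w)
        rw [T_apply, T_apply, T_apply, mu_apply, mu_apply, Finset.mul_sum, ← Finset.sum_sub_distrib]
        rw [Finset.sum_subset (hsub'.trans (Finset.erase_subset _ _))
          (fun j _ hj => by rw [Polynomial.notMem_support_iff.1 hj, zero_mul])]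
        refine Finset.sum_congr rfl fun j _ => ?_
        rw [hq, mul_pow]; ring
      rw [this]
      exact hsub _ (hr _ hJ _) _ (hl _ _ hJ)

lemma xpow_ne (n : ℕ) : x0 ^ n ≠ 0 := by
  intro h
  have h1 : (tau ^ n) 1 = (0 : E) 1 := by
    have := congrArg (fun a : R0 => (a : E) 1) h
    exact this
  rw [tau_pow_apply] at h1
  simp at h1

lemma tt_inj (p : K[X]) (h : tt p = 0) : p = 0 := by
  by_contra hp
  obtain ⟨n, hn⟩ := key {0} (by simp) (by simp) (by simp) _ p rfl hp h
  exact xpow_ne n hn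

lemma tt_surj (a : R0) : ∃ p, tt p = a := by
  obtain ⟨a, p, rfl⟩ := a
  exact ⟨p, rfl⟩

lemma tt_add (p q : K[X]) : tt (p + q) = tt p + tt q := Subtype.ext (T_add p q)

lemma tt_X (p : K[X]) : tt (p * X) = tt p * x0 := by
  induction p using Polynomial.induction_on' with
  | add a b ha hb => rw [add_mul, tt_add, tt_add, ha, hb, add_mul]
  | monomial i k =>
    apply Subtype.ext
    change T _ = T _ * tau
    rw [monomial_mul_X, T_mon, T_mon, pow_succ, mul_assoc]

lemma tt_Xpow (p : K[X]) (n : ℕ) : tt (p * X ^ n) = tt p * x0 ^ n := by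
  induction n with
  | zero => simp
  | succ n ih => rw [pow_succ, ← mul_assoc, tt_X, ih, pow_succ, mul_assoc]

lemma x_comm (b : R0) : ∃ b', x0 * b = b' * x0 := by
  obtain ⟨p, rfl⟩ := tt_surj b
  induction p using Polynomial.induction_on' with
  | add a b ha hb =>
    obtain ⟨r, hr⟩ := ha; obtain ⟨s, hs⟩ := hb
    exact ⟨r + s, by rw [tt_add, mul_add, hr, hs, add_mul]⟩
  | monomial i k =>
    refine ⟨tt (monomial i (k ^ 2)), ?_⟩
    apply Subtype.ext
    change tau * T _ = T _ * tau
    have h := mon_mul 1 i 1 k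
    rw [mu_one, one_mul, pow_one, one_mul, pow_one] at h
    rw [T_mon, T_mon, h, add_comm, pow_succ tau, mul_assoc]

lemma xpow_comm (n : ℕ) (b : R0) : ∃ b', x0 ^ n * b = b' * x0 ^ n := by
  induction n generalizing b with
  | zero => exact ⟨b, by simp⟩
  | succ n ih =>
    obtain ⟨c, hc⟩ := x_comm b
    obtain ⟨d, hd⟩ := ih c
    exact ⟨d, by rw [pow_succ, mul_assoc, hc, ← mul_assoc, hd, mul_assoc]⟩

lemma inter_zero (a : R0) (h : ∀ n, ∃ b, a = b * x0 ^ n) : a = 0 := by
  obtain ⟨p, rfl⟩ := tt_surj a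
  have hp : p = 0 := by
    ext j
    obtain ⟨b, hb⟩ := h (j + 1)
    obtain ⟨q, rfl⟩ := tt_surj b
    rw [← tt_Xpow] at hb
    have h1 : tt (p - q * X ^ (j + 1)) = 0 := by
      have := tt_add (p - q * X ^ (j + 1)) (q * X ^ (j + 1))
      rw [sub_add_cancel, hb] at this
      simpa using this
    rw [sub_eq_zero.1 (tt_inj _ h1), coeff_mul_X_pow']
    simp
  rw [hp]; exact Subtype.ext T_zero

open MulOpposite

lemma prim : RightPrimitive (R0ᵐᵒᵖ) := by
  refine ⟨K, inferInstance, AddMonoidHom.mk' (fun m => AddMonoidHom.mk'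
    (fun r : R0ᵐᵒᵖ => ((unop r : R0) : E) m) (fun _ _ => rfl)) (fun a b => ?_), ?_, ?_, ?_, ?_⟩
  · apply AddMonoidHom.ext; intro r
    exact map_add ((unop r : R0) : E) a b
  · intro m r s; rfl
  · exact ⟨1, 1, one_ne_zero (α := K)⟩
  · intro N hN
    by_cases h : N = ⊥
    · exact Or.inl h
    · right
      obtain ⟨⟨m, hm⟩, hm0⟩ := AddSubgroup.ne_bot_iff_exists_ne_zero.1 h
      have hm1 : m ≠ 0 := fun h => hm0 (Subtype.ext h)
      rw [eq_top_iff]
      intro y _
      have := hN m hm (op (mm (y * m⁻¹)))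
      change y * m⁻¹ * m ∈ N at this
      rwa [inv_mul_cancel_right₀ hm1] at this
  · intro r hr
    apply unop_injective
    apply Subtype.ext
    apply AddMonoidHom.ext
    exact hr

lemma kills {S : Type} [NonUnitalRing S] (f : R0ᵐᵒᵖ →ₙ+* S) (hf : Function.Surjective f)
    (h1 : RightPrimitive S) (h2 : SubdirectlyIndecomposable S) : f (op x0) = 0 := by
  by_cases hinj : ∀ a : R0, f (op a) = 0 → a = 0
  · exfalso
    obtain ⟨s, hs, hI⟩ := h2
    obtain ⟨r, rfl⟩ := hf s
    apply hs
    have : unop r = 0 := by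
      apply inter_zero
      intro n
      let I : TwoSidedIdeal S := TwoSidedIdeal.mk' {s | ∃ b : R0, s = f (op (b * x0 ^ n))}
        ⟨0, by simp⟩
        (by rintro _ _ ⟨a, rfl⟩ ⟨b, rfl⟩; exact ⟨a + b, by rw [add_mul, op_add, map_add]⟩)
        (by rintro _ ⟨a, rfl⟩; exact ⟨-a, by rw [neg_mul, op_neg, map_neg]⟩)
        (by
          rintro y _ ⟨a, rfl⟩
          obtain ⟨y, rfl⟩ := hf y
          obtain ⟨c, hc⟩ := xpow_comm n (unop y)
          exact ⟨a * c, by rw [← map_mul, mul_assoc, ← hc, ← mul_assoc, op_mul (a * x0 ^ n), op_unop]⟩)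
        (by
          rintro _ y ⟨a, rfl⟩
          obtain ⟨y, rfl⟩ := hf y
          exact ⟨unop y * a, by rw [← map_mul, mul_assoc, op_mul (unop y), op_unop]⟩)
      have hne : I ≠ ⊥ := by
        intro h
        have : f (op (1 * x0 ^ n)) ∈ I := (TwoSidedIdeal.mem_mk' _ _ _ _ _ _ _).2 ⟨1, rfl⟩
        rw [h, TwoSidedIdeal.mem_bot] at this
        exact xpow_ne n (by simpa using hinj _ this)
      obtain ⟨b, hb⟩ := (TwoSidedIdeal.mem_mk' _ _ _ _ _ _ _).1 (hI I hne)
      refine ⟨b, sub_eq_zero.1 (hinj _ ?_)⟩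
      rw [op_sub, map_sub, op_unop, hb, sub_self]
    rw [← op_unop r, this]; simp
  · push Not at hinj
    obtain ⟨a, ha, ha0⟩ := hinj
    obtain ⟨p, rfl⟩ := tt_surj a
    have hp : p ≠ 0 := by rintro rfl; exact ha0 (Subtype.ext T_zero)
    obtain ⟨n, hn⟩ := key {a | f (op a) = 0}
      (fun a ha b hb => by
        change f (op (a - b)) = 0
        rw [op_sub, map_sub, ha, hb, sub_zero])
      (fun a b hb => by
        change f (op (a * b)) = 0
        rw [op_mul, map_mul, hb, zero_mul])
      (fun a ha b => by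
        change f (op (a * b)) = 0
        rw [op_mul, map_mul, ha, mul_zero]) _ p rfl hp ha
    change f (op (x0 ^ n)) = 0 at hn
    obtain ⟨M, _, act, hassoc, ⟨m0, r0, h0⟩, hsimp, hfaith⟩ := h1
    let N : AddSubgroup M := AddSubgroup.closure {y | ∃ m b, y = act m (f (op (b * x0)))}
    have hN : ∀ m ∈ N, ∀ r, act m r ∈ N := by
      intro m hm r
      induction hm using AddSubgroup.closure_induction with
      | mem y hy =>
        obtain ⟨m, b, rfl⟩ := hy
        obtain ⟨r, rfl⟩ := hf r
        refine AddSubgroup.subset_closure ⟨m, unop r * b, ?_⟩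
        rw [← hassoc, ← map_mul, mul_assoc, op_mul (unop r), op_unop]
      | zero => simp
      | add a b _ _ ha hb => rw [map_add]; exact N.add_mem ha hb
      | neg a _ ha => rw [map_neg]; exact N.neg_mem ha
    rcases hsimp N hN with h | h
    · apply hfaith
      intro m
      have : act m (f (op (1 * x0))) ∈ N := AddSubgroup.subset_closure ⟨m, 1, rfl⟩
      rw [h, AddSubgroup.mem_bot, one_mul] at this
      exact this
    · exfalso
      have step : ∀ k, (∀ m b, act m (f (op (b * x0 ^ (k + 1)))) = 0) →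
          ∀ m b, act m (f (op (b * x0 ^ k))) = 0 := by
        intro k hk m b
        have hm : m ∈ N := by rw [h]; trivial
        induction hm using AddSubgroup.closure_induction with
        | mem y hy =>
          obtain ⟨m, c, rfl⟩ := hy
          obtain ⟨d, hd⟩ := xpow_comm k c
          rw [← hassoc, ← map_mul, ← op_mul, mul_assoc, ← mul_assoc (x0 ^ k), hd, mul_assoc,
            ← pow_succ, ← mul_assoc]
          exact hk _ _
        | zero => simp
        | add a b _ _ ha hb => rw [map_add, AddMonoidHom.add_apply, ha, hb, add_zero]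
        | neg a _ ha => rw [map_neg, AddMonoidHom.neg_apply, ha, neg_zero]
      have all : ∀ k, (∀ m b, act m (f (op (b * x0 ^ k))) = 0) →
          ∀ m b, act m (f (op (b * x0 ^ 0))) = 0 := by
        intro k
        induction k with
        | zero => exact id
        | succ k ih => exact fun hk => ih (step k hk)
      obtain ⟨r0, rfl⟩ := hf r0
      have := all n (fun m b => by rw [op_mul, map_mul, hn, zero_mul, map_zero]) m0 (unop r0)
      exact h0 (by simpa using this)

theorem result :
    ¬ ∀ (R : Type) [NonUnitalRing R], RightPrimitive R →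
      ∃ (ι : Type) (S : ι → Type) (_ : ∀ i, NonUnitalRing (S i)) (f : ∀ i, R →ₙ+* S i),
        (∀ i, Function.Surjective (f i)) ∧ (∀ r, (∀ i, f i r = 0) → r = 0) ∧
        ∀ i, RightPrimitive (S i) ∧ SubdirectlyIndecomposable (S i) := by
  intro h
  obtain ⟨ι, S, _, f, h1, h2, h3⟩ := h (R0ᵐᵒᵖ) prim
  have := h2 (op x0) fun i => kills (f i) (h1 i) (h3 i).1 (h3 i).2
  exact xpow_ne 1 (by simpa using this)

end Pool.Agent.Results.MP_150040_al.Fails
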